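import Mathlib
import Pool.Agent.H39.SemMain

namespace Pool.Agent.Results.MP_0e1d24_pr.Identifiable

open Matrix

/-- A simple directed graph: no edge goes from a node to itself, and `(i, j)` and `(j, i)` are
never both edges. Directed cycles are allowed. -/
def IsSimple {V : Type} (G : Digraph V) : Prop :=
  (∀ i, ¬ G.Adj i i) ∧ ∀ i j, G.Adj i j → ¬ G.Adj j i

/-- The homoscedastic model `M_G`: all `s (I - Λ)(I - Λ)ᵀ` with `s > 0`, `Λ` supported on the
edges of `G` and `I - Λ` invertible. -/
def model {V : Type} [Fintype V] [DecidableEq V] (G : Digraph V) : Set (Matrix V V ℝ) :=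
  {K | ∃ (Λ : Matrix V V ℝ) (s : ℝ), (∀ i j, ¬ G.Adj i j → Λ i j = 0) ∧ IsUnit (1 - Λ) ∧
    0 < s ∧ K = s • ((1 - Λ) * (1 - Λ)ᵀ)}

/-- The dimension of the Zariski closure of a set `S` of real matrices: the Krull dimension of
`ℝ[X_{ij}]` modulo the ideal of the polynomials vanishing on `S`. -/
noncomputable def dim {V : Type} (S : Set (Matrix V V ℝ)) : WithBot ℕ∞ :=
  ringKrullDim (MvPolynomial (V × V) ℝ ⧸
    MvPolynomial.vanishingIdeal ℝ ((fun (K : Matrix V V ℝ) (p : V × V) => K p.1 p.2) '' S))

/-- The graph parameter of the family of models `M_G`, `G ∈ 𝒢`, is generically identifiable. -/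
def GenericallyIdentifiable {V : Type} [Fintype V] [DecidableEq V] (𝒢 : Set (Digraph V)) : Prop :=
  ∀ G₁ ∈ 𝒢, ∀ G₂ ∈ 𝒢, G₁ ≠ G₂ →
    dim (model G₁ ∩ model G₂) < max (dim (model G₁)) (dim (model G₂))

section

variable {V : Type} [Fintype V] [DecidableEq V]

/-- The edge set as a finset. -/
noncomputable def edges (G : Digraph V) : Finset (V × V) :=
  letI := Classical.decPred (fun p : V × V => G.Adj p.1 p.2)
  Finset.univ.filter fun p => G.Adj p.1 p.2

lemma mem_edges (G : Digraph V) (p : V × V) : p ∈ edges G ↔ G.Adj p.1 p.2 := by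
  simp [edges]

lemma model_eq (G : Digraph V) (hG : IsSimple G) :
    (model G : Set (V → V → ℝ)) = H39.Sem.modelSet (edges G) := by
  classical
  ext K
  constructor
  · rintro ⟨Λ, s, hΛ, hu, hs, hK⟩
    set r : ℝ := √s with hr
    have hr0 : 0 < r := Real.sqrt_pos.2 hs
    have hrs : r * r = s := Real.mul_self_sqrt hs.le
    set x : Option (edges G) → ℝ := fun c => match c with
      | none => r
      | some e => - (r * Λ (e : V × V).1 (e : V × V).2) with hx
    have hmat : ∀ k l, H39.Sem.mat (edges G) x k l = r * (1 - Λ) k l := by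
      intro k l
      by_cases hkl : k = l
      · subst hkl
        simp [H39.Sem.mat, hx, hΛ k k (hG.1 k)]
      · by_cases hD : (k, l) ∈ edges G
        · simp [H39.Sem.mat, hkl, hD, hx]
        · have h1 : Λ k l = 0 := hΛ k l (fun h => hD ((mem_edges G _).2 h))
          simp [H39.Sem.mat, hkl, hD, h1]
    refine ⟨x, hr0, ?_, ?_⟩
    · have h1 : Matrix.of (H39.Sem.mat (edges G) x) = r • (1 - Λ) := by
        ext k l
        rw [Matrix.of_apply, hmat, Matrix.smul_apply, smul_eq_mul]
      rw [h1, Matrix.isUnit_iff_isUnit_det, Matrix.det_smul]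
      exact ((isUnit_iff_ne_zero.2 hr0.ne').pow _).mul ((Matrix.isUnit_iff_isUnit_det _).1 hu)
    · funext k l
      have h2 : K k l = s * ∑ m, (1 - Λ) k m * (1 - Λ) l m := by
        rw [hK, Matrix.smul_apply, Matrix.mul_apply, smul_eq_mul]
        rfl
      rw [h2, H39.Sem.phi, Finset.mul_sum]
      refine Finset.sum_congr rfl fun m _ => ?_
      rw [hmat, hmat, ← hrs]
      ring
  · rintro ⟨x, hx0, hu, hK⟩
    set r : ℝ := x none with hr
    have hr0 : r ≠ 0 := hx0.ne'
    set B : Matrix V V ℝ := Matrix.of (H39.Sem.mat (edges G) x) with hB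
    refine ⟨1 - r⁻¹ • B, r ^ 2, ?_, ?_, by positivity, ?_⟩
    · intro i j hij
      by_cases h : i = j
      · subst h
        simp [hB, H39.Sem.mat, ← hr, hr0]
      · have hD : (i, j) ∉ edges G := fun h' => hij ((mem_edges G _).1 h')
        simp [hB, H39.Sem.mat, h, hD]
    · rw [sub_sub_cancel, Matrix.isUnit_iff_isUnit_det, Matrix.det_smul]
      exact ((isUnit_iff_ne_zero.2 (inv_ne_zero hr0)).pow _).mul
        ((Matrix.isUnit_iff_isUnit_det _).1 hu)
    · rw [sub_sub_cancel]
      ext k l
      rw [Matrix.smul_apply, Matrix.mul_apply, smul_eq_mul, Finset.mul_sum]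
      rw [hK, H39.Sem.phi]
      refine Finset.sum_congr rfl fun m _ => ?_
      rw [Matrix.transpose_apply, Matrix.smul_apply, Matrix.smul_apply, smul_eq_mul, smul_eq_mul,
        hB, Matrix.of_apply, Matrix.of_apply]
      field_simp

end

/-- Generic identifiability of homoscedastic cyclic linear structural equation models, for all
families of simple directed graphs, complete or not. -/
theorem result (V : Type) [Fintype V] [DecidableEq V] (𝒢 : Set (Digraph V))
    (h𝒢 : ∀ G ∈ 𝒢, IsSimple G) : GenericallyIdentifiable 𝒢 := by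
  classical
  intro G₁ hG₁ G₂ hG₂ hne
  have s₁ := h𝒢 G₁ hG₁
  have s₂ := h𝒢 G₂ hG₂
  have hD : ∀ G : Digraph V, IsSimple G → ∀ p ∈ edges G, (p.2, p.1) ∉ edges G := by
    intro G hG p hp h
    rw [mem_edges] at hp h
    exact hG.2 _ _ hp h
  have hne' : edges G₁ ≠ edges G₂ := by
    intro h
    apply hne
    ext i j
    have h1 := mem_edges G₁ (i, j)
    have h2 := mem_edges G₂ (i, j)
    rw [h] at h1
    exact h1.symm.trans h2
  have hmain := H39.Sem.main (edges G₁) (edges G₂) (hD G₁ s₁) (hD G₂ s₂) hne'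
  rw [← model_eq G₁ s₁, ← model_eq G₂ s₂] at hmain
  exact hmain

end Pool.Agent.Results.MP_0e1d24_pr.Identifiable
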